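import Mathlib

/-!
# A Mengerian set system without the seven-set minor whose Menger dual is not Menger
-/

set_option autoImplicit false

namespace Pool.Agent.Results.MP_f18e63_co.NinePoints

/-- A set system: a finite set of points together with a collection of distinct subsets, the
blocks. -/
structure SetSystem (α : Type) [DecidableEq α] where
  points : Finset α
  blocks : Finset (Finset α)
  sub : ∀ B ∈ blocks, B ⊆ points

variable {α β : Type} [DecidableEq α] [DecidableEq β]

/-- The inclusion-minimal blocks. -/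
def minBlocks (F : SetSystem α) : Finset (Finset α) :=
  F.blocks.filter (fun B => ∀ C ∈ F.blocks, C ⊆ B → C = B)

/-- `C` meets every inclusion-minimal block. -/
def MeetsAll (F : SetSystem α) (C : Finset α) : Prop :=
  ∀ B ∈ minBlocks F, (B ∩ C).Nonempty

instance (F : SetSystem α) (C : Finset α) : Decidable (MeetsAll F C) := by
  unfold MeetsAll; infer_instance

/-- The Menger dual: the inclusion-minimal sets of points that meet every minimal block. -/
def dual (F : SetSystem α) : SetSystem α where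
  points := F.points
  blocks := F.points.powerset.filter (fun C => MeetsAll F C ∧
    ∀ D ∈ F.points.powerset, MeetsAll F D → D ⊆ C → D = C)
  sub := fun _ hB => Finset.mem_powerset.1 (Finset.mem_filter.1 hB).1

/-- The Menger property: the largest number of pairwise disjoint minimal blocks equals the least
cardinality of a block of the Menger dual (by convention it holds if there are no blocks or if the
empty set is a block). -/
def HasMenger (F : SetSystem α) : Prop :=
  F.blocks = ∅ ∨ ∅ ∈ F.blocks ∨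
    ∃ k : ℕ, IsGreatest {n | ∃ P : Finset (Finset α), P ⊆ minBlocks F ∧
        (∀ A ∈ P, ∀ B ∈ P, A ≠ B → Disjoint A B) ∧ P.card = n} k ∧
      IsLeast {n | ∃ C ∈ (dual F).blocks, C.card = n} k

/-- Mengerian set systems. -/
def IsMengerian (F : SetSystem α) : Prop :=
  ∅ ∈ F.blocks ∨ ∀ c : α → ℕ, ∃ f : Finset α → ℕ,
    (∀ x ∈ F.points, ∑ B ∈ F.blocks.filter (fun B => x ∈ B), f B ≤ c x) ∧
    IsLeast {n | ∃ C ∈ (dual F).blocks, ∑ x ∈ C, c x = n} (∑ B ∈ F.blocks, f B)

/-- Weak point-restriction: the points of `S'` are removed from all blocks. -/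
def weak (F : SetSystem α) (S' : Finset α) : SetSystem α where
  points := F.points \ S'
  blocks := F.blocks.image (fun B => B \ S')
  sub := by
    intro B hB
    obtain ⟨A, hA, rfl⟩ := Finset.mem_image.1 hB
    exact Finset.sdiff_subset_sdiff (F.sub A hA) (Finset.Subset.refl _)

/-- Strong point-restriction: only the blocks disjoint from `S'` are kept. -/
def strong (F : SetSystem α) (S' : Finset α) : SetSystem α where
  points := F.points \ S'
  blocks := F.blocks.filter (fun B => B ∩ S' = ∅)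
  sub := by
    intro B hB x hx
    obtain ⟨h1, h2⟩ := Finset.mem_filter.1 hB
    refine Finset.mem_sdiff.2 ⟨F.sub B h1 hx, fun hx' => ?_⟩
    have : x ∈ B ∩ S' := Finset.mem_inter.2 ⟨hx, hx'⟩
    rw [h2] at this
    exact absurd this (Finset.notMem_empty x)

/-- One restriction step. -/
def Step (F G : SetSystem α) : Prop :=
  ∃ S' ⊆ F.points, G = weak F S' ∨ G = strong F S'

/-- `G` is a minor of `F`: it is reached by a sequence of weak and strong point-restrictions. -/
def IsMinor (G F : SetSystem α) : Prop := Relation.ReflTransGen Step F G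

/-- `F` contains the system `Q` as a minor: the minimal blocks of some minor of `F` coincide with
the blocks of `Q` up to a renaming of the points that lie in blocks. -/
def ContainsMinor (F : SetSystem α) (Q : SetSystem β) : Prop :=
  ∃ G : SetSystem α, IsMinor G F ∧ ∃ σ : α → β,
    Set.InjOn σ {x | ∃ B ∈ minBlocks G, x ∈ B} ∧
    (minBlocks G).image (fun B => B.image σ) = Q.blocks

/-- The system `(abc, cde, bdf, aef, cf, be, ad)` on `{a, b, c, d, e, f}`, the points being numbered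
`a = 0, b = 1, c = 2, d = 3, e = 4, f = 5`. -/
def sevenSets : SetSystem (Fin 6) where
  points := Finset.univ
  blocks := {{0, 1, 2}, {2, 3, 4}, {1, 3, 5}, {0, 4, 5}, {2, 5}, {1, 4}, {0, 3}}
  sub := fun B _ => Finset.subset_univ B

/-! ### General facts -/

lemma mem_minBlocks {F : SetSystem α} {B : Finset α} :
    B ∈ minBlocks F ↔ B ∈ F.blocks ∧ ∀ C ∈ F.blocks, C ⊆ B → C = B := by
  simp only [minBlocks, Finset.mem_filter]

/-- every meeting set contains a block of the dual -/
lemma exists_dual_block (F : SetSystem α) {C : Finset α} (hC : C ⊆ F.points)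
    (hm : MeetsAll F C) : ∃ D ∈ (dual F).blocks, D ⊆ C := by
  classical
  have hne : (C.powerset.filter (fun D => MeetsAll F D)).Nonempty :=
    ⟨C, Finset.mem_filter.2 ⟨Finset.mem_powerset.2 (Finset.Subset.refl _), hm⟩⟩
  obtain ⟨D, hD, hmin⟩ := Finset.exists_min_image _ (fun D => D.card) hne
  obtain ⟨hD1, hD2⟩ := Finset.mem_filter.1 hD
  have hDC := Finset.mem_powerset.1 hD1
  refine ⟨D, ?_, hDC⟩
  refine Finset.mem_filter.2 ⟨Finset.mem_powerset.2 (hDC.trans hC), hD2, ?_⟩
  intro E _ hE2 hED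
  have h1 := hmin E (Finset.mem_filter.2 ⟨Finset.mem_powerset.2 (hED.trans hDC), hE2⟩)
  exact Finset.eq_of_subset_of_card_le hED h1

lemma mem_dual {F : SetSystem α} {C : Finset α} : C ∈ (dual F).blocks ↔
    C ⊆ F.points ∧ MeetsAll F C ∧
      ∀ D ∈ F.points.powerset, MeetsAll F D → D ⊆ C → D = C := by
  simp only [dual, Finset.mem_filter, Finset.mem_powerset]

/-- the blocks of the dual are pairwise incomparable -/
lemma minBlocks_dual (F : SetSystem α) : minBlocks (dual F) = (dual F).blocks := by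
  unfold minBlocks
  refine Finset.filter_true_of_mem ?_
  intro B hB C hC hCB
  obtain ⟨h1, h2, _⟩ := mem_dual.1 hC
  exact (mem_dual.1 hB).2.2 C (Finset.mem_powerset.2 h1) h2 hCB

/-! ### The nine point system -/

/-- Ten blocks on nine points: three paths of pairs `{0,1},{1,2}`, `{3,4},{4,5}`, `{6,7},{7,8}` and
four transversal triples. -/
def nine : SetSystem (Fin 9) where
  points := Finset.univ
  blocks := {{0, 1}, {1, 2}, {3, 4}, {4, 5}, {6, 7}, {7, 8}, {1, 4, 7}, {1, 3, 8}, {2, 4, 6},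
    {0, 5, 7}}
  sub := fun B _ => Finset.subset_univ B

lemma minBlocks_nine : minBlocks nine = nine.blocks := by decide +kernel

lemma meets_iff (C : Finset (Fin 9)) : MeetsAll nine C ↔
    (0 ∈ C ∨ 1 ∈ C) ∧ (1 ∈ C ∨ 2 ∈ C) ∧ (3 ∈ C ∨ 4 ∈ C) ∧ (4 ∈ C ∨ 5 ∈ C) ∧ (6 ∈ C ∨ 7 ∈ C) ∧
    (7 ∈ C ∨ 8 ∈ C) ∧ (1 ∈ C ∨ 4 ∈ C ∨ 7 ∈ C) ∧ (1 ∈ C ∨ 3 ∈ C ∨ 8 ∈ C) ∧
    (2 ∈ C ∨ 4 ∈ C ∨ 6 ∈ C) ∧ (0 ∈ C ∨ 5 ∈ C ∨ 7 ∈ C) := by
  unfold MeetsAll
  rw [minBlocks_nine]
  simp only [nine, Finset.mem_insert, Finset.mem_singleton, forall_eq_or_imp, forall_eq,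
    Finset.Nonempty, Finset.mem_inter, exists_eq_left, or_and_right, exists_or]

lemma fill (a g s : ℕ) (h : s ≤ a + g) : ∃ x y, x ≤ a ∧ y ≤ g ∧ x + y = s :=
  ⟨min s a, s - min s a, by omega, by omega, by omega⟩

/-- The arithmetic heart: a packing whose size equals one of the ten cover weights. -/
lemma arith (a0 b0 g0 a1 b1 g1 a2 b2 g2 : ℕ) :
    ∃ s0 s1 s2 z t0 t1 t2 : ℕ,
      t2 ≤ a0 ∧ t1 ≤ g0 ∧ t0 ≤ a1 ∧ t2 ≤ g1 ∧ t1 ≤ a2 ∧ t0 ≤ g2 ∧
      s0 + z + t0 ≤ b0 ∧ s1 + z + t1 ≤ b1 ∧ s2 + z + t2 ≤ b2 ∧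
      s0 + t2 + t1 ≤ a0 + g0 ∧ s1 + t0 + t2 ≤ a1 + g1 ∧ s2 + t1 + t0 ≤ a2 + g2 ∧
      (s0 + s1 + s2 + z + t0 + t1 + t2 = b0 + b1 + b2 ∨
       s0 + s1 + s2 + z + t0 + t1 + t2 = b0 + (a1 + g1) + (a2 + g2) ∨
       s0 + s1 + s2 + z + t0 + t1 + t2 = b1 + (a0 + g0) + (a2 + g2) ∨
       s0 + s1 + s2 + z + t0 + t1 + t2 = b2 + (a0 + g0) + (a1 + g1) ∨
       s0 + s1 + s2 + z + t0 + t1 + t2 = b1 + b2 + (a0 + g0) + a1 ∨
       s0 + s1 + s2 + z + t0 + t1 + t2 = b1 + b2 + (a0 + g0) + g2 ∨
       s0 + s1 + s2 + z + t0 + t1 + t2 = b2 + b0 + (a1 + g1) + a2 ∨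
       s0 + s1 + s2 + z + t0 + t1 + t2 = b2 + b0 + (a1 + g1) + g0 ∨
       s0 + s1 + s2 + z + t0 + t1 + t2 = b0 + b1 + (a2 + g2) + a0 ∨
       s0 + s1 + s2 + z + t0 + t1 + t2 = b0 + b1 + (a2 + g2) + g1) := by
  -- minimum of five numbers
  have min5 : ∀ p q r s t : ℕ, ∃ u, u ≤ p ∧ u ≤ q ∧ u ≤ r ∧ u ≤ s ∧ u ≤ t ∧
      (u = p ∨ u = q ∨ u = r ∨ u = s ∨ u = t) := by
    intro p q r s t
    exact ⟨min p (min q (min r (min s t))), by omega, by omega, by omega, by omega, by omega,
      by omega⟩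
  have min3 : ∀ p q r : ℕ, ∃ u, u ≤ p ∧ u ≤ q ∧ u ≤ r ∧ (u = p ∨ u = q ∨ u = r) := by
    intro p q r
    exact ⟨min p (min q r), by omega, by omega, by omega, by omega⟩
  rcases Nat.lt_or_ge (a0 + g0) b0 with h0 | h0 <;>
  rcases Nat.lt_or_ge (a1 + g1) b1 with h1 | h1 <;>
  rcases Nat.lt_or_ge (a2 + g2) b2 with h2 | h2
  · obtain ⟨z, hz0, hz1, hz2, hz⟩ := min3 (b0 - (a0 + g0)) (b1 - (a1 + g1)) (b2 - (a2 + g2))
    exact ⟨a0 + g0, a1 + g1, a2 + g2, z, 0, 0, 0, by omega, by omega, by omega, by omega, by omega,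
      by omega, by omega, by omega, by omega, by omega, by omega, by omega, by omega⟩
  · exact ⟨a0 + g0, a1 + g1, b2, 0, 0, 0, 0, by omega, by omega, by omega, by omega, by omega,
      by omega, by omega, by omega, by omega, by omega, by omega, by omega, by omega⟩
  · exact ⟨a0 + g0, b1, a2 + g2, 0, 0, 0, 0, by omega, by omega, by omega, by omega, by omega,
      by omega, by omega, by omega, by omega, by omega, by omega, by omega, by omega⟩
  · obtain ⟨u, hu1, hu2, hu3, hu4, hu5, hu⟩ :=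
      min5 (b0 - (a0 + g0)) a1 g2 (a1 + g1 - b1) (a2 + g2 - b2)
    exact ⟨a0 + g0, b1, b2, 0, u, 0, 0, by omega, by omega, by omega, by omega, by omega,
      by omega, by omega, by omega, by omega, by omega, by omega, by omega, by omega⟩
  · exact ⟨b0, a1 + g1, a2 + g2, 0, 0, 0, 0, by omega, by omega, by omega, by omega, by omega,
      by omega, by omega, by omega, by omega, by omega, by omega, by omega, by omega⟩
  · obtain ⟨u, hu1, hu2, hu3, hu4, hu5, hu⟩ :=
      min5 (b1 - (a1 + g1)) a2 g0 (a0 + g0 - b0) (a2 + g2 - b2)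
    exact ⟨b0, a1 + g1, b2, 0, 0, u, 0, by omega, by omega, by omega, by omega, by omega,
      by omega, by omega, by omega, by omega, by omega, by omega, by omega, by omega⟩
  · obtain ⟨u, hu1, hu2, hu3, hu4, hu5, hu⟩ :=
      min5 (b2 - (a2 + g2)) a0 g1 (a0 + g0 - b0) (a1 + g1 - b1)
    exact ⟨b0, b1, a2 + g2, 0, 0, 0, u, by omega, by omega, by omega, by omega, by omega,
      by omega, by omega, by omega, by omega, by omega, by omega, by omega, by omega⟩
  · exact ⟨b0, b1, b2, 0, 0, 0, 0, by omega, by omega, by omega, by omega, by omega,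
      by omega, by omega, by omega, by omega, by omega, by omega, by omega, by omega⟩

/-- There is always a packing whose size is the weight of a meeting set. -/
lemma packing (c : Fin 9 → ℕ) :
    ∃ x0 y0 x1 y1 x2 y2 z t0 t1 t2 : ℕ,
      x0 + t2 ≤ c 0 ∧ x0 + y0 + z + t0 ≤ c 1 ∧ y0 + t1 ≤ c 2 ∧
      x1 + t0 ≤ c 3 ∧ x1 + y1 + z + t1 ≤ c 4 ∧ y1 + t2 ≤ c 5 ∧
      x2 + t1 ≤ c 6 ∧ x2 + y2 + z + t2 ≤ c 7 ∧ y2 + t0 ≤ c 8 ∧
      ∃ C : Finset (Fin 9), MeetsAll nine C ∧
        ∑ x ∈ C, c x = x0 + y0 + x1 + y1 + x2 + y2 + z + t0 + t1 + t2 := by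
  obtain ⟨s0, s1, s2, z, t0, t1, t2, h1, h2, h3, h4, h5, h6, h7, h8, h9, h10, h11, h12, h⟩ :=
    arith (c 0) (c 1) (c 2) (c 3) (c 4) (c 5) (c 6) (c 7) (c 8)
  obtain ⟨x0, y0, hx0, hy0, e0⟩ := fill (c 0 - t2) (c 2 - t1) s0 (by omega)
  obtain ⟨x1, y1, hx1, hy1, e1⟩ := fill (c 3 - t0) (c 5 - t2) s1 (by omega)
  obtain ⟨x2, y2, hx2, hy2, e2⟩ := fill (c 6 - t1) (c 8 - t0) s2 (by omega)
  refine ⟨x0, y0, x1, y1, x2, y2, z, t0, t1, t2, by omega, by omega, by omega, by omega, by omega,
    by omega, by omega, by omega, by omega, ?_⟩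
  have key : ∀ C : Finset (Fin 9), MeetsAll nine C → ∑ x ∈ C, c x = s0 + s1 + s2 + z + t0 + t1 + t2
      → ∃ C : Finset (Fin 9), MeetsAll nine C ∧
        ∑ x ∈ C, c x = x0 + y0 + x1 + y1 + x2 + y2 + z + t0 + t1 + t2 := by
    intro C hC hs
    exact ⟨C, hC, by omega⟩
  rcases h with h | h | h | h | h | h | h | h | h | h
  · refine key {1, 4, 7} (by decide +kernel) ?_
    rw [h]; simp [Finset.sum_insert]; omega
  · refine key {1, 3, 5, 6, 8} (by decide +kernel) ?_
    rw [h]; simp [Finset.sum_insert]; omega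
  · refine key {4, 0, 2, 6, 8} (by decide +kernel) ?_
    rw [h]; simp [Finset.sum_insert]; omega
  · refine key {7, 0, 2, 3, 5} (by decide +kernel) ?_
    rw [h]; simp [Finset.sum_insert]; omega
  · refine key {4, 7, 0, 2, 3} (by decide +kernel) ?_
    rw [h]; simp [Finset.sum_insert]; omega
  · refine key {4, 7, 0, 2, 8} (by decide +kernel) ?_
    rw [h]; simp [Finset.sum_insert]; omega
  · refine key {7, 1, 3, 5, 6} (by decide +kernel) ?_
    rw [h]; simp [Finset.sum_insert]; omega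
  · refine key {7, 1, 3, 5, 2} (by decide +kernel) ?_
    rw [h]; simp [Finset.sum_insert]; omega
  · refine key {1, 4, 6, 8, 0} (by decide +kernel) ?_
    rw [h]; simp [Finset.sum_insert]; omega
  · refine key {1, 4, 6, 8, 5} (by decide +kernel) ?_
    rw [h]; simp [Finset.sum_insert]; omega

/-- weak duality: the size of a packing is at most the weight of any meeting set -/
lemma weak_duality (F : SetSystem α) (hmin : minBlocks F = F.blocks) (c : α → ℕ)
    (f : Finset α → ℕ)
    (hf : ∀ x ∈ F.points, ∑ B ∈ F.blocks.filter (fun B => x ∈ B), f B ≤ c x)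
    {C : Finset α} (hCp : C ⊆ F.points) (hC : MeetsAll F C) :
    ∑ B ∈ F.blocks, f B ≤ ∑ x ∈ C, c x := by
  calc ∑ B ∈ F.blocks, f B ≤ ∑ B ∈ F.blocks, ∑ x ∈ C.filter (fun x => x ∈ B), f B := by
        refine Finset.sum_le_sum fun B hB => ?_
        obtain ⟨x, hx⟩ := hC B (by rw [hmin]; exact hB)
        have hx' : x ∈ C.filter (fun x => x ∈ B) :=
          Finset.mem_filter.2 ⟨(Finset.mem_inter.1 hx).2, (Finset.mem_inter.1 hx).1⟩
        rw [Finset.sum_const, smul_eq_mul]
        have : 1 ≤ (C.filter (fun x => x ∈ B)).card := Finset.card_pos.2 ⟨x, hx'⟩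
        exact Nat.le_mul_of_pos_left _ this
    _ = ∑ x ∈ C, ∑ B ∈ F.blocks.filter (fun B => x ∈ B), f B := by
        rw [Finset.sum_comm' (t' := C) (s' := fun x => F.blocks.filter (fun B => x ∈ B))]
        intro B x
        simp only [Finset.mem_filter]
        tauto
    _ ≤ ∑ x ∈ C, c x := Finset.sum_le_sum fun x hx => hf x (hCp hx)

theorem nine_mengerian : IsMengerian nine := by
  right
  intro c
  obtain ⟨x0, y0, x1, y1, x2, y2, z, t0, t1, t2, h0, h1, h2, h3, h4, h5, h6, h7, h8, C, hC, hs⟩ :=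
    packing c
  let f : Finset (Fin 9) → ℕ := fun B =>
    if B = {0, 1} then x0 else if B = {1, 2} then y0 else
    if B = {3, 4} then x1 else if B = {4, 5} then y1 else
    if B = {6, 7} then x2 else if B = {7, 8} then y2 else
    if B = {1, 4, 7} then z else if B = {1, 3, 8} then t0 else
    if B = {2, 4, 6} then t1 else if B = {0, 5, 7} then t2 else 0
  have f1 : f {0, 1} = x0 := if_pos rfl
  have f2 : f {1, 2} = y0 := rfl
  have f3 : f {3, 4} = x1 := rfl
  have f4 : f {4, 5} = y1 := rfl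
  have f5 : f {6, 7} = x2 := rfl
  have f6 : f {7, 8} = y2 := rfl
  have f7 : f {1, 4, 7} = z := rfl
  have f8 : f {1, 3, 8} = t0 := rfl
  have f9 : f {2, 4, 6} = t1 := rfl
  have f10 : f {0, 5, 7} = t2 := rfl
  have hne : ∀ A B : Finset (Fin 9), A ≠ B → A ∉ ({B} : Finset (Finset (Fin 9))) :=
    fun A B h h' => h (Finset.mem_singleton.1 h')
  have hcap : ∀ x ∈ nine.points, ∑ B ∈ nine.blocks.filter (fun B => x ∈ B), f B ≤ c x := by
    intro x _
    fin_cases x
    · have e : nine.blocks.filter (fun B => (0 : Fin 9) ∈ B) = {{0, 1}, {0, 5, 7}} := by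
        decide +kernel
      show ∑ B ∈ nine.blocks.filter (fun B => (0 : Fin 9) ∈ B), f B ≤ c 0
      rw [e, Finset.sum_pair (by decide +kernel), f1, f10]
      exact h0
    · have e : nine.blocks.filter (fun B => (1 : Fin 9) ∈ B) =
          {{0, 1}, {1, 2}, {1, 4, 7}, {1, 3, 8}} := by decide +kernel
      show ∑ B ∈ nine.blocks.filter (fun B => (1 : Fin 9) ∈ B), f B ≤ c 1
      rw [e, Finset.sum_insert (by decide +kernel), Finset.sum_insert (by decide +kernel),
        Finset.sum_pair (by decide +kernel), f1, f2, f7, f8]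
      omega
    · have e : nine.blocks.filter (fun B => (2 : Fin 9) ∈ B) = {{1, 2}, {2, 4, 6}} := by
        decide +kernel
      show ∑ B ∈ nine.blocks.filter (fun B => (2 : Fin 9) ∈ B), f B ≤ c 2
      rw [e, Finset.sum_pair (by decide +kernel), f2, f9]
      exact h2
    · have e : nine.blocks.filter (fun B => (3 : Fin 9) ∈ B) = {{3, 4}, {1, 3, 8}} := by
        decide +kernel
      show ∑ B ∈ nine.blocks.filter (fun B => (3 : Fin 9) ∈ B), f B ≤ c 3
      rw [e, Finset.sum_pair (by decide +kernel), f3, f8]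
      exact h3
    · have e : nine.blocks.filter (fun B => (4 : Fin 9) ∈ B) =
          {{3, 4}, {4, 5}, {1, 4, 7}, {2, 4, 6}} := by decide +kernel
      show ∑ B ∈ nine.blocks.filter (fun B => (4 : Fin 9) ∈ B), f B ≤ c 4
      rw [e, Finset.sum_insert (by decide +kernel), Finset.sum_insert (by decide +kernel),
        Finset.sum_pair (by decide +kernel), f3, f4, f7, f9]
      omega
    · have e : nine.blocks.filter (fun B => (5 : Fin 9) ∈ B) = {{4, 5}, {0, 5, 7}} := by
        decide +kernel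
      show ∑ B ∈ nine.blocks.filter (fun B => (5 : Fin 9) ∈ B), f B ≤ c 5
      rw [e, Finset.sum_pair (by decide +kernel), f4, f10]
      exact h5
    · have e : nine.blocks.filter (fun B => (6 : Fin 9) ∈ B) = {{6, 7}, {2, 4, 6}} := by
        decide +kernel
      show ∑ B ∈ nine.blocks.filter (fun B => (6 : Fin 9) ∈ B), f B ≤ c 6
      rw [e, Finset.sum_pair (by decide +kernel), f5, f9]
      exact h6
    · have e : nine.blocks.filter (fun B => (7 : Fin 9) ∈ B) =
          {{6, 7}, {7, 8}, {1, 4, 7}, {0, 5, 7}} := by decide +kernel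
      show ∑ B ∈ nine.blocks.filter (fun B => (7 : Fin 9) ∈ B), f B ≤ c 7
      rw [e, Finset.sum_insert (by decide +kernel), Finset.sum_insert (by decide +kernel),
        Finset.sum_pair (by decide +kernel), f5, f6, f7, f10]
      omega
    · have e : nine.blocks.filter (fun B => (8 : Fin 9) ∈ B) = {{7, 8}, {1, 3, 8}} := by
        decide +kernel
      show ∑ B ∈ nine.blocks.filter (fun B => (8 : Fin 9) ∈ B), f B ≤ c 8
      rw [e, Finset.sum_pair (by decide +kernel), f6, f8]
      exact h8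
  have htot : ∑ B ∈ nine.blocks, f B = ∑ x ∈ C, c x := by
    rw [hs]
    show ∑ B ∈ ({{0, 1}, {1, 2}, {3, 4}, {4, 5}, {6, 7}, {7, 8}, {1, 4, 7}, {1, 3, 8}, {2, 4, 6},
      {0, 5, 7}} : Finset (Finset (Fin 9))), f B = _
    rw [Finset.sum_insert (by decide +kernel), Finset.sum_insert (by decide +kernel),
      Finset.sum_insert (by decide +kernel), Finset.sum_insert (by decide +kernel),
      Finset.sum_insert (by decide +kernel), Finset.sum_insert (by decide +kernel),
      Finset.sum_insert (by decide +kernel), Finset.sum_insert (by decide +kernel),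
      Finset.sum_pair (by decide +kernel), f1, f2, f3, f4, f5, f6, f7, f8, f9, f10]
    omega
  refine ⟨f, hcap, ?_, ?_⟩
  · obtain ⟨D, hD, hDC⟩ := exists_dual_block nine (Finset.subset_univ C) hC
    refine ⟨D, hD, le_antisymm ?_ ?_⟩
    · rw [htot]
      exact Finset.sum_le_sum_of_subset hDC
    · exact weak_duality nine minBlocks_nine c f hcap (Finset.subset_univ D) (mem_dual.1 hD).2.1
  · rintro n ⟨D, hD, rfl⟩
    exact weak_duality nine minBlocks_nine c f hcap (Finset.subset_univ D) (mem_dual.1 hD).2.1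

/-! ### The dual is not Menger -/

lemma bool_key : ∀ p0 p1 p2 p3 p4 p5 p6 p7 p8 : Bool,
    (((p0 || p1) && (p1 || p2) && (p3 || p4) && (p4 || p5) && (p6 || p7) && (p7 || p8) &&
      (p1 || p4 || p7) && (p1 || p3 || p8) && (p2 || p4 || p6) && (p0 || p5 || p7)) &&
    ((!p0 || !p1) && (!p1 || !p2) && (!p3 || !p4) && (!p4 || !p5) && (!p6 || !p7) &&
      (!p7 || !p8) && (!p1 || !p4 || !p7) && (!p1 || !p3 || !p8) && (!p2 || !p4 || !p6) &&
      (!p0 || !p5 || !p7))) = false := by decide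

/-- there are no two disjoint meeting sets -/
lemma no_disjoint {C D : Finset (Fin 9)} (hC : MeetsAll nine C) (hD : MeetsAll nine D) :
    ¬ Disjoint C D := by
  intro hdis
  rw [meets_iff] at hC hD
  have h : ∀ i : Fin 9, i ∈ D → i ∉ C := fun i hi hi' => Finset.disjoint_left.1 hdis hi' hi
  obtain ⟨d1, d2, d3, d4, d5, d6, d7, d8, d9, d10⟩ := hD
  obtain ⟨c1, c2, c3, c4, c5, c6, c7, c8, c9, c10⟩ := hC
  have e1 := d1.imp (h 0) (h 1)
  have e2 := d2.imp (h 1) (h 2)
  have e3 := d3.imp (h 3) (h 4)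
  have e4 := d4.imp (h 4) (h 5)
  have e5 := d5.imp (h 6) (h 7)
  have e6 := d6.imp (h 7) (h 8)
  have e7 := d7.imp (h 1) (Or.imp (h 4) (h 7))
  have e8 := d8.imp (h 1) (Or.imp (h 3) (h 8))
  have e9 := d9.imp (h 2) (Or.imp (h 4) (h 6))
  have e10 := d10.imp (h 0) (Or.imp (h 5) (h 7))
  have key := bool_key (decide ((0 : Fin 9) ∈ C)) (decide ((1 : Fin 9) ∈ C))
    (decide ((2 : Fin 9) ∈ C)) (decide ((3 : Fin 9) ∈ C)) (decide ((4 : Fin 9) ∈ C))
    (decide ((5 : Fin 9) ∈ C)) (decide ((6 : Fin 9) ∈ C)) (decide ((7 : Fin 9) ∈ C))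
    (decide ((8 : Fin 9) ∈ C))
  have key2 : ((0 : Fin 9) ∈ C ∨ 1 ∈ C) ∧ (1 ∈ C ∨ 2 ∈ C) ∧ (3 ∈ C ∨ 4 ∈ C) ∧ (4 ∈ C ∨ 5 ∈ C) ∧
      (6 ∈ C ∨ 7 ∈ C) ∧ (7 ∈ C ∨ 8 ∈ C) ∧ (1 ∈ C ∨ 4 ∈ C ∨ 7 ∈ C) ∧ (1 ∈ C ∨ 3 ∈ C ∨ 8 ∈ C) ∧
      (2 ∈ C ∨ 4 ∈ C ∨ 6 ∈ C) ∧ (0 ∈ C ∨ 5 ∈ C ∨ 7 ∈ C) := ⟨c1, c2, c3, c4, c5, c6, c7, c8, c9, c10⟩
  rw [Bool.eq_false_iff] at key
  apply key
  simp only [Bool.and_eq_true, Bool.or_eq_true, decide_eq_true_eq, Bool.not_eq_true',
    decide_eq_false_iff_not, or_assoc]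
  exact ⟨⟨⟨⟨⟨⟨⟨⟨⟨⟨c1, c2⟩, c3⟩, c4⟩, c5⟩, c6⟩, c7⟩, c8⟩, c9⟩, c10⟩,
    ⟨⟨⟨⟨⟨⟨⟨⟨⟨e1, e2⟩, e3⟩, e4⟩, e5⟩, e6⟩, e7⟩, e8⟩, e9⟩, e10⟩⟩

/-- removing a point from the ground set leaves a meeting set -/
lemma meets_erase (i : Fin 9) : MeetsAll nine (Finset.univ.erase i) := by
  revert i
  decide +kernel

theorem not_menger : ¬ HasMenger (dual nine) := by
  intro h
  obtain ⟨D0, hD0, _⟩ := exists_dual_block nine (Finset.subset_univ _) (meets_erase 0)
  rcases h with h | h | ⟨k, ⟨⟨P, hP, hPd, hPk⟩, hub⟩, ⟨C, hC, hCk⟩, hlb⟩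
  · rw [h] at hD0
    exact absurd hD0 (Finset.notMem_empty _)
  · have h1 := (mem_dual.1 h).2.1
    rw [meets_iff] at h1
    simp at h1
  · rw [minBlocks_dual] at hP
    have hk1 : k ≤ 1 := by
      by_contra hk
      push Not at hk
      rw [← hPk] at hk
      obtain ⟨A, hA, B, hB, hAB⟩ := Finset.one_lt_card.1 hk
      exact no_disjoint (mem_dual.1 (hP hA)).2.1 (mem_dual.1 (hP hB)).2.1 (hPd A hA B hB hAB)
    have hCc : C.card ≤ 1 := by omega
    have hCm := (mem_dual.1 hC).2.1
    -- `C` has at most one element, but some dual block avoids it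
    obtain ⟨i, hi⟩ : ∃ i : Fin 9, C ⊆ {i} := by
      rcases Finset.eq_empty_or_nonempty C with h0 | ⟨i, hi⟩
      · exact ⟨0, by rw [h0]; exact Finset.empty_subset _⟩
      · refine ⟨i, fun j hj => Finset.mem_singleton.2 ?_⟩
        exact Finset.card_le_one.1 hCc j hj i hi
    obtain ⟨D, hD, hDi⟩ := exists_dual_block nine (Finset.subset_univ _) (meets_erase i)
    have hDm : D ∈ minBlocks (dual nine) := by rw [minBlocks_dual]; exact hD
    obtain ⟨x, hx⟩ := hCm D hDm
    have hx1 := hDi (Finset.mem_inter.1 hx).1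
    have hx2 := Finset.mem_singleton.1 (hi (Finset.mem_inter.1 hx).2)
    exact (Finset.mem_erase.1 hx1).1 hx2

/-! ### No minor is the seven-set system -/

lemma minBlocks_congr {F G : SetSystem α} (h : F.blocks = G.blocks) :
    minBlocks F = minBlocks G := by
  ext B
  simp only [minBlocks, Finset.mem_filter, h]

/-- The invariant of minors: either nothing has been removed, or some point is missing. Blocks of a
minor are obtained from the blocks of `nine` and never contain a removed point. -/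
def Inv (G : SetSystem (Fin 9)) : Prop :=
  ∀ B ∈ G.blocks, ∃ A ∈ nine.blocks, B ⊆ A

lemma inv_weak {G : SetSystem (Fin 9)} (h : Inv G) (S' : Finset (Fin 9)) : Inv (weak G S') := by
  intro B hB
  obtain ⟨A, hA, rfl⟩ := Finset.mem_image.1 hB
  obtain ⟨A', hA', hAA⟩ := h A hA
  exact ⟨A', hA', Finset.sdiff_subset.trans hAA⟩

lemma inv_strong {G : SetSystem (Fin 9)} (h : Inv G) (S' : Finset (Fin 9)) : Inv (strong G S') := by
  intro B hB
  exact h B (Finset.mem_filter.1 hB).1

lemma inv_minor {G : SetSystem (Fin 9)} (h : IsMinor G nine) :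
    Inv G ∧ (G.points = Finset.univ → minBlocks G = nine.blocks) := by
  induction h with
  | refl => exact ⟨fun B hB => ⟨B, hB, Finset.Subset.refl _⟩, fun _ => minBlocks_nine⟩
  | tail _ hs ih =>
    rename_i H K _
    obtain ⟨ih1, ih2⟩ := ih
    obtain ⟨S', hS', hK⟩ := hs
    have hpts : ∀ T : Finset (Fin 9), T = H.points \ S' → T = Finset.univ → S' = ∅ := by
      intro T hT hT'
      rw [hT] at hT'
      rw [Finset.eq_empty_iff_forall_notMem]
      intro x hx
      have : x ∈ H.points \ S' := by rw [hT']; exact Finset.mem_univ x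
      exact (Finset.mem_sdiff.1 this).2 hx
    rcases hK with rfl | rfl
    · refine ⟨inv_weak ih1 S', fun hp => ?_⟩
      have hS0 := hpts _ rfl hp
      subst hS0
      have hH : H.points = Finset.univ := by simpa [weak] using hp
      have hb : (weak H ∅).blocks = H.blocks := by simp [weak]
      exact (minBlocks_congr hb).trans (ih2 hH)
    · refine ⟨inv_strong ih1 S', fun hp => ?_⟩
      have hS0 := hpts _ rfl hp
      subst hS0
      have hH : H.points = Finset.univ := by simpa [strong] using hp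
      have hb : (strong H ∅).blocks = H.blocks := by simp [strong]
      exact (minBlocks_congr hb).trans (ih2 hH)

/-- A block of a minor with three points is one of the four triples of `nine`. -/
lemma three_mem {G : SetSystem (Fin 9)} (h : Inv G) {B : Finset (Fin 9)} (hB : B ∈ G.blocks)
    (h3 : B.card = 3) : B ∈ nine.blocks.filter (fun A => A.card = 3) := by
  obtain ⟨A, hA, hBA⟩ := h B hB
  have hA3 : ∀ A ∈ nine.blocks, A.card ≤ 3 := by decide +kernel
  have : B = A := Finset.eq_of_subset_of_card_le hBA (by rw [h3]; exact hA3 A hA)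
  rw [this] at h3 ⊢
  exact Finset.mem_filter.2 ⟨hA, h3⟩

theorem no_minor : ¬ ContainsMinor nine sevenSets := by
  rintro ⟨G, hG, σ, hσ, himg⟩
  obtain ⟨hinv, hfull⟩ := inv_minor hG
  have hcard : ∀ B ∈ minBlocks G, (B.image σ).card = B.card := by
    intro B hB
    apply Finset.card_image_of_injOn
    intro x hx y hy hxy
    exact hσ ⟨B, hB, hx⟩ ⟨B, hB, hy⟩ hxy
  -- the four triples of the seven-set system come from four different triples of `nine`
  have h4 : ((minBlocks G).filter (fun B => B.card = 3)).card ≥ 4 := by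
    have h5 : sevenSets.blocks.filter (fun B => B.card = 3) ⊆
        ((minBlocks G).filter (fun B => B.card = 3)).image (fun B => B.image σ) := by
      intro A hA
      obtain ⟨hA1, hA2⟩ := Finset.mem_filter.1 hA
      rw [← himg] at hA1
      obtain ⟨B, hB, rfl⟩ := Finset.mem_image.1 hA1
      refine Finset.mem_image.2 ⟨B, Finset.mem_filter.2 ⟨hB, ?_⟩, rfl⟩
      rw [← hcard B hB]
      exact hA2
    have h6 : (sevenSets.blocks.filter (fun B => B.card = 3)).card = 4 := by decide +kernel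
    calc 4 = _ := h6.symm
      _ ≤ _ := Finset.card_le_card h5
      _ ≤ _ := Finset.card_image_le
  have hsub : (minBlocks G).filter (fun B => B.card = 3) ⊆
      nine.blocks.filter (fun A => A.card = 3) := by
    intro B hB
    obtain ⟨hB1, hB2⟩ := Finset.mem_filter.1 hB
    exact three_mem hinv (mem_minBlocks.1 hB1).1 hB2
  have heq : (minBlocks G).filter (fun B => B.card = 3) = nine.blocks.filter (fun A => A.card = 3) := by
    apply Finset.eq_of_subset_of_card_le hsub
    have : (nine.blocks.filter (fun A => A.card = 3)).card = 4 := by decide +kernel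
    omega
  -- hence no point was removed
  have hpts : G.points = Finset.univ := by
    rw [Finset.eq_univ_iff_forall]
    intro x
    have hx : ∃ A ∈ nine.blocks.filter (fun A => A.card = 3), x ∈ A := by
      revert x
      decide +kernel
    obtain ⟨A, hA, hxA⟩ := hx
    rw [← heq] at hA
    exact G.sub A (mem_minBlocks.1 (Finset.mem_filter.1 hA).1).1 hxA
  have hmin := hfull hpts
  -- but then the minor has ten minimal blocks instead of seven
  have hinj : Set.InjOn (fun B : Finset (Fin 9) => B.image σ) (minBlocks G : Set (Finset (Fin 9))) := by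
    intro A hA B hB hAB
    have hAB' : A.image σ = B.image σ := hAB
    ext x
    constructor
    · intro hx
      have : σ x ∈ B.image σ := by rw [← hAB']; exact Finset.mem_image_of_mem σ hx
      obtain ⟨y, hy, hyx⟩ := Finset.mem_image.1 this
      have := hσ ⟨B, hB, hy⟩ ⟨A, hA, hx⟩ hyx
      rwa [← this]
    · intro hx
      have : σ x ∈ A.image σ := by rw [hAB']; exact Finset.mem_image_of_mem σ hx
      obtain ⟨y, hy, hyx⟩ := Finset.mem_image.1 this
      have := hσ ⟨A, hA, hy⟩ ⟨B, hB, hx⟩ hyx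
      rwa [← this]
  have h7 : (minBlocks G).card = sevenSets.blocks.card := by
    rw [← himg, Finset.card_image_of_injOn hinj]
  rw [hmin] at h7
  revert h7
  decide +kernel

/-- There is a Mengerian set system which does not contain the system
`(abc, cde, bdf, aef, cf, be, ad)` as a minor and whose Menger dual does not have the Menger
property. -/
theorem result : ∃ F : SetSystem (Fin 9),
    IsMengerian F ∧ ¬ ContainsMinor F sevenSets ∧ ¬ HasMenger (dual F) :=
  ⟨nine, nine_mengerian, no_minor, not_menger⟩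

end Pool.Agent.Results.MP_f18e63_co.NinePoints
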